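import Pool.Agent.H534.FCe
import Pool.Agent.H534.FCf
open Pool.Agent.H534.FC
open scoped Pointwise

namespace Pool.Agent.Results.MP_fc7b8c_co.SharpThreshold

/-- Let `G` be a countable abelian group with `l = [G : 2G]` and `r = |ker (x ↦ 2x)|` finite and
with `7G` infinite. Then some Følner sequence `Φ` of `G` with positive doubling ratio `α` and some
`A` of upper density exactly `1 - α / (l + r)` along `Φ` are such that `A` contains no `B + B` with
`B` infinite. -/
theorem result {G : Type*} [AddCommGroup G] [Countable G]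
    (hl : (nsmulAddMonoidHom 2 : G →+ G).range.index ≠ 0)
    (hr : Finite (nsmulAddMonoidHom 2 : G →+ G).ker)
    (hG : (Set.range (fun x : G => 7 • x)).Infinite) :
    ∃ Φ : ℕ → Finset G, IsFolner Φ ∧ 0 < doublingRatio Φ ∧ ∃ A : Set G,
      upperDensity Φ A = 1 - doublingRatio Φ /
        (((nsmulAddMonoidHom 2 : G →+ G).range.index : ℝ) +
          (Nat.card (nsmulAddMonoidHom 2 : G →+ G).ker : ℝ)) ∧
      ∀ B : Set G, B.Infinite → ¬ (B + B ⊆ A) := by
  classical
  obtain ⟨Φ, h1, h2, A, h3, h4⟩ : ∃ Φ : ℕ → Finset G, IsFolner Φ ∧ 0 < doublingRatio Φ ∧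
      ∃ A : Set G, upperDensity Φ A = 1 - doublingRatio Φ /
        (((D2 G).range.index : ℝ) + (Nat.card (D2 G).ker : ℝ)) ∧
      ∀ B : Set G, B.Infinite → ¬ (∀ x ∈ B, ∀ y ∈ B, x + y ∈ A) := by
    by_cases h21 : (Set.range (fun x : G => 21 • x)).Finite
    · exact main2 hl hG h21
    · exact main hl h21
  refine ⟨Φ, h1, h2, A, h3, fun B hB hBA => h4 B hB ?_⟩
  exact fun x hx y hy => hBA (Set.add_mem_add hx hy)

end Pool.Agent.Results.MP_fc7b8c_co.SharpThreshold
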